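import Pool.Agent.Y998.LQ.Defs
import Pool.Agent.Y259.CN.CG

/-!
# LQ-ZC: the trace for the complete graph at all times (helper267, for project LQ of helper998)
-/

set_option autoImplicit false

namespace Pool.Agent.Y267.LQ

open Finset Equiv Pool.Agent.Y998.ST Pool.Agent.Y998.CN Pool.Agent.Y998.LP Pool.Agent.Y998.LQ
open Pool.Agent.Y259.CN (trace_E eig_card H1 ham_herm WW_inv nsp pat Pc eig_nonneg)

/-- Abel summation for powers. -/
theorem pow_abel (x : ℝ) (m M : ℕ) (h : m ≤ M) :
    x ^ m = x ^ M + ∑ j ∈ range M, (if m ≤ j then x ^ j - x ^ (j + 1) else 0) := by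
  induction M, h using Nat.le_induction with
  | base =>
    rw [Finset.sum_eq_zero]
    · ring
    · intro j hj
      rw [if_neg (not_le.2 (Finset.mem_range.1 hj))]
  | succ M hM ih =>
    rw [Finset.sum_range_succ, if_pos hM, ih]
    ring

theorem sum_abel {ι : Type} [Fintype ι] (J : ι → ℕ) (x : ℝ) (M : ℕ) (hM : ∀ i, J i ≤ M) :
    ∑ i, x ^ J i = ((univ.filter fun i => J i ≤ M).card : ℝ) * x ^ M +
      ∑ j ∈ range M, ((univ.filter fun i => J i ≤ j).card : ℝ) * (x ^ j - x ^ (j + 1)) := by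
  have h1 : ∀ i, x ^ J i = x ^ M + ∑ j ∈ range M, (if J i ≤ j then x ^ j - x ^ (j + 1) else 0) :=
    fun i => pow_abel x (J i) M (hM i)
  rw [Finset.sum_congr rfl fun i _ => h1 i, Finset.sum_add_distrib, Finset.sum_comm]
  congr 1
  · rw [Finset.sum_const, nsmul_eq_mul]
    congr 3
    rw [Finset.filter_true_of_mem fun i _ => hM i]
  · refine Finset.sum_congr rfl fun j _ => ?_
    rw [← Finset.sum_filter, Finset.sum_const, nsmul_eq_mul]

/-- comparison of two power sums -/
theorem sum_cmp {ι κ : Type} [Fintype ι] [Fintype κ] (J : ι → ℕ) (K : κ → ℕ) (A : ℕ) (x : ℝ)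
    (hx0 : 0 ≤ x) (hx1 : x ≤ 1)
    (h : ∀ j, (univ.filter fun i => J i ≤ j).card ≤ A * (univ.filter fun k => K k ≤ j).card) :
    ∑ i, x ^ J i ≤ A * ∑ k, x ^ K k := by
  obtain ⟨M, hM1, hM2⟩ : ∃ M : ℕ, (∀ i, J i ≤ M) ∧ ∀ k, K k ≤ M := by
    refine ⟨max (univ.sup J) (univ.sup K), fun i => ?_, fun k => ?_⟩
    · exact (Finset.le_sup (Finset.mem_univ i)).trans (le_max_left _ _)
    · exact (Finset.le_sup (Finset.mem_univ k)).trans (le_max_right _ _)
  rw [sum_abel J x M hM1, sum_abel K x M hM2, mul_add, Finset.mul_sum]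
  have h' : ∀ j, ((univ.filter fun i => J i ≤ j).card : ℝ) ≤
      A * ((univ.filter fun k => K k ≤ j).card : ℝ) := by
    intro j
    exact_mod_cast h j
  refine add_le_add ?_ (Finset.sum_le_sum fun j _ => ?_)
  · rw [← mul_assoc]
    exact mul_le_mul_of_nonneg_right (h' M) (pow_nonneg hx0 _)
  · rw [← mul_assoc]
    refine mul_le_mul_of_nonneg_right (h' j) ?_
    rw [pow_succ]
    nlinarith [pow_nonneg hx0 j]

section

variable {V : Type} [Fintype V] [DecidableEq V] {q : ℕ}

/-- the generating function of the patterns -/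
theorem gen_nsp (x : ℝ) : ∑ ν : V → Option (Fin q), x ^ nsp ν =
    (1 + q * x) ^ Fintype.card V := by
  have h1 : ∀ ν : V → Option (Fin q), x ^ nsp ν = ∏ v, (if ν v ≠ none then x else 1) := by
    intro ν
    unfold nsp
    rw [← Finset.prod_filter, Finset.prod_const]
  rw [Finset.sum_congr rfl fun ν _ => h1 ν]
  have h2 := Finset.prod_univ_sum (fun _ : V => (univ : Finset (Option (Fin q))))
    (fun _ o => if o ≠ none then x else (1 : ℝ))
  rw [Fintype.piFinset_univ] at h2
  rw [← h2]
  have h3 : ∑ o : Option (Fin q), (if o ≠ none then x else (1 : ℝ)) = 1 + q * x := by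
    rw [Fintype.sum_option]
    simp
  rw [Finset.prod_congr rfl fun _ _ => h3, Finset.prod_const, Finset.card_univ]

theorem finrank_WW' (j : ℕ) : Module.finrank ℝ (Pool.Agent.Y259.CN.WW V q j) ≤
    (Fintype.card V + 1) ^ q * (univ.filter fun ν : V → Option (Fin q) => nsp ν ≤ j).card := by
  obtain ⟨F, hF⟩ : ∃ F : Finset ((V → Option (Fin q)) × (Fin q → ℕ)),
      F = (univ.filter fun ν : V → Option (Fin q) => nsp ν ≤ j) ×ˢ
        Fintype.piFinset (fun _ : Fin q => range (Fintype.card V + 1)) := ⟨_, rfl⟩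
  have h1 : Pool.Agent.Y259.CN.WW V q j ≤ Submodule.span ℝ ((F.image pat : Finset _) : Set _) := by
    unfold Pool.Agent.Y259.CN.WW
    rw [Submodule.span_le]
    rintro f ⟨p, hp, rfl⟩
    by_cases hp2 : ∀ a, p.2 a ≤ Fintype.card V
    · apply Submodule.subset_span
      rw [Finset.coe_image]
      refine ⟨p, ?_, rfl⟩
      rw [hF, Finset.mem_coe, Finset.mem_product, Finset.mem_filter, Fintype.mem_piFinset]
      exact ⟨⟨Finset.mem_univ _, hp⟩, fun a => Finset.mem_range.2 (Nat.lt_succ_iff.2 (hp2 a))⟩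
    · push Not at hp2
      obtain ⟨a, ha⟩ := hp2
      have h2 : pat p = 0 := by
        ext c
        change (if Pc p c then (1 : ℝ) else 0) = 0
        rw [if_neg]
        rintro ⟨-, h3⟩
        have h4 := Finset.card_le_univ (univ.filter fun x => c x = a)
        rw [h3 a] at h4
        omega
      rw [h2]
      exact Submodule.zero_mem _
  refine (Submodule.finrank_mono h1).trans ?_
  refine (finrank_span_finset_le_card (F.image pat)).trans (Finset.card_image_le.trans ?_)
  rw [hF, Finset.card_product, Fintype.card_piFinset_const, Finset.card_range, mul_comm]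

theorem WW_perp' (hEN : S_EN2) (j : ℕ) (lam : ℝ) (f : EuclideanSpace ℝ (V → Fin q)) (hf : f ≠ 0)
    (h : Matrix.toEuclideanLin (H1 V q) f = lam • f) (hp : f ∈ (Pool.Agent.Y259.CN.WW V q j)ᗮ) :
    ((j : ℝ) + 1) * Fintype.card V / 2 ≤ lam := by
  refine hEN V q j lam f ?_ ?_ ?_
  · intro h0
    apply hf
    ext c
    exact congrFun h0 c
  · intro c
    have h1 : (Matrix.toEuclideanLin (H1 V q) f) c = (lam • f) c := by rw [h]
    rw [Matrix.toLpLin_apply] at h1
    exact h1
  · intro ν μ hν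
    have h1 : pat (ν, μ) ∈ Pool.Agent.Y259.CN.WW V q j := Submodule.subset_span ⟨(ν, μ), hν, rfl⟩
    have h2 := (Submodule.mem_orthogonal _ f).1 hp _ h1
    rw [PiLp.inner_apply] at h2
    refine Eq.trans ?_ h2
    refine Finset.sum_congr rfl fun c _ => ?_
    change (if Pc (ν, μ) c then f c else 0) = inner ℝ (if Pc (ν, μ) c then (1 : ℝ) else 0) (f c)
    by_cases hc : Pc (ν, μ) c
    · rw [if_pos hc, if_pos hc]
      simp
    · rw [if_neg hc, if_neg hc]
      simp

theorem count' (hEN : S_EN2) (j : ℕ) :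
    (univ.filter fun i => (ham_herm (V := V) (q := q)).eigenvalues i <
      ((j : ℝ) + 1) * Fintype.card V / 2).card ≤
      (Fintype.card V + 1) ^ q * (univ.filter fun ν : V → Option (Fin q) => nsp ν ≤ j).card :=
  (eig_card (H1 V q) ham_herm (Pool.Agent.Y259.CN.WW V q j) (WW_inv j) _ (fun lam f hf h hp =>
    WW_perp' hEN j lam f hf h hp)).trans (finrank_WW' j)

end

theorem t_ZC (hEN : Pool.Agent.Y998.LP.S_EN2) : Pool.Agent.Y998.LQ.S_ZC := by
  intro V _ _ q s hs
  rcases Nat.eq_zero_or_pos (Fintype.card V) with hn | hn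
  · unfold Zf
    rw [hn, Nat.cast_zero, div_zero, E_zero, Matrix.trace_one, Fintype.card_fun, hn]
    simp
  · have hnR : (0 : ℝ) < Fintype.card V := by exact_mod_cast hn
    unfold Zf
    rw [trace_E (H1 V q) ham_herm]
    obtain ⟨lam, hlam⟩ : ∃ lam : (V → Fin q) → ℝ,
        lam = (ham_herm (V := V) (q := q)).eigenvalues := ⟨_, rfl⟩
    have hl0 : ∀ i, 0 ≤ lam i := by rw [hlam]; exact eig_nonneg
    have hct := count' (V := V) (q := q) hEN
    rw [← hlam] at hct
    rw [← hlam]
    have hth : (0 : ℝ) < Fintype.card V / 2 := by positivity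
    obtain ⟨J, hJ⟩ : ∃ J : (V → Fin q) → ℕ, J = fun i => ⌊lam i / (Fintype.card V / 2)⌋₊ :=
      ⟨_, rfl⟩
    have h1 : ∀ i, Real.exp (-(s / Fintype.card V * lam i)) ≤ Real.exp (-(s / 2)) ^ J i := by
      intro i
      rw [← Real.exp_nat_mul]
      apply Real.exp_le_exp.2
      have h2 : (J i : ℝ) ≤ lam i / (Fintype.card V / 2) := by
        rw [hJ]
        exact Nat.floor_le (div_nonneg (hl0 i) hth.le)
      have h3 : s / Fintype.card V * lam i = lam i / (Fintype.card V / 2) * (s / 2) := by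
        field_simp
      rw [h3]
      have := mul_le_mul_of_nonneg_right h2 (show (0 : ℝ) ≤ s / 2 by positivity)
      linarith
    have h4 : ∀ j, (univ.filter fun i => J i ≤ j).card ≤ (Fintype.card V + 1) ^ q *
        (univ.filter fun ν : V → Option (Fin q) => nsp ν ≤ j).card := by
      intro j
      refine (Finset.card_le_card ?_).trans (hct j)
      intro i hi
      rw [Finset.mem_filter] at hi ⊢
      refine ⟨Finset.mem_univ _, ?_⟩
      have h6 : lam i / (Fintype.card V / 2) < (j : ℝ) + 1 := by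
        have h7 : lam i / (Fintype.card V / 2) < (J i : ℝ) + 1 := by
          rw [hJ]
          exact Nat.lt_floor_add_one _
        have h8 : (J i : ℝ) ≤ j := by exact_mod_cast hi.2
        linarith
      rw [div_lt_iff₀ hth] at h6
      linarith
    have h5 := sum_cmp J (fun ν : V → Option (Fin q) => nsp ν) ((Fintype.card V + 1) ^ q)
      (Real.exp (-(s / 2))) (Real.exp_pos _).le (Real.exp_le_one_iff.2 (by linarith)) h4
    rw [gen_nsp] at h5
    refine (Finset.sum_le_sum fun i _ => h1 i).trans (h5.trans (le_of_eq ?_))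
    push_cast
    rfl

end Pool.Agent.Y267.LQ
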